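import Pool.Agent.Helper51_Equitable.Nice

/-!
# Equitable proper labellings: a polynomial bound in terms of the maximum degree

Every nice graph `G` with maximum degree at most `Δ`, whatever its number of edges, has an equitable
proper labelling with labels in `{1, …, 160 Δ^7}`.

Proof idea.  Among all proper labellings with labels `1, …, 4Δ` take one minimising the sum of the
squares of the class sizes; all but `2Δ-2` classes are then large, and the others can be emptied.
Next a scattered (induced) matching, containing a prescribed number of edges of each class, is moved to
one huge label; this keeps the labelling proper and makes all class sizes close to multiples of a common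
number `N + 1`.  Finally each class `c` is split into parts of size `N` or `N + 1`, which get the labels
`M c + 1, M c + 2, …` where `M` is so large that the splitting cannot create conflicts.
-/

open SimpleGraph Pool.Agent.Helper51_Equitable

namespace Pool.Agent.Helper51_Moved.MP_3faef8_co.BoundedDegree

/-- **Main result.** Every nice graph `G` all of whose vertices have degree at most `Δ` has an equitable
proper `160 Δ^7`-labelling. -/
theorem result : ∀ (V : Type) [Fintype V] (G : SimpleGraph V) (Δ : ℕ), Nice G →
    (∀ v, (G.neighborSet v).ncard ≤ Δ) →
    ∃ ℓ : Sym2 V → ℕ, IsEquitableProper G (160 * Δ ^ 7) ℓ := by
  intro V _ G Δ hG hΔ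
  exact exists_equitable_of_nice hG hΔ

end Pool.Agent.Helper51_Moved.MP_3faef8_co.BoundedDegree
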